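import Mathlib

namespace Pool.Agent.Lib.MP_0ee9ff_an

open MeasureTheory Filter
open scoped ENNReal InnerProductSpace

theorem countable_of_orthonormal {H ι : Type*} [NormedAddCommGroup H] [InnerProductSpace ℂ H]
    [TopologicalSpace.SeparableSpace H] {v : ι → H} (hv : Orthonormal ℂ v) : Countable ι := by
  refine Pairwise.countable_of_isOpen_disjoint (s := fun i => Metric.ball (v i) (1 / 2)) ?_
    (fun i => Metric.isOpen_ball) (fun i => ⟨v i, Metric.mem_ball_self (by norm_num)⟩)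
  intro i j hij
  apply Metric.ball_disjoint_ball
  have h1 : ‖v i - v j‖ ^ 2 = 2 := by
    rw [@norm_sub_sq ℂ, hv.1 i, hv.1 j, hv.2 hij]
    norm_num
  rw [dist_eq_norm]
  nlinarith [norm_nonneg (v i - v j)]

theorem parseval {H ι : Type*} [NormedAddCommGroup H] [InnerProductSpace ℂ H]
    (b : HilbertBasis ι ℂ H) (f : H) : ∑' i, ‖⟪f, b i⟫_ℂ‖ₑ ^ 2 = ‖f‖ₑ ^ 2 := by
  have h1 := b.hasSum_inner_mul_inner f f
  have h2 : HasSum (fun i => ‖⟪f, b i⟫_ℂ‖ ^ 2) (‖f‖ ^ 2) := by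
    have h3 := Complex.reCLM.hasSum h1
    convert h3 using 1
    · ext i
      rw [← inner_conj_symm (b i) f, Complex.mul_conj, Complex.reCLM_apply, Complex.ofReal_re,
        Complex.normSq_eq_norm_sq]
    · rw [Complex.reCLM_apply]
      exact (inner_self_eq_norm_sq (𝕜 := ℂ) f).symm
  have h4 : ∀ x : ℝ, 0 ≤ x → ENNReal.ofReal (x ^ 2) = ENNReal.ofReal x ^ 2 := fun x hx =>
    ENNReal.ofReal_pow hx 2
  simp only [← ofReal_norm, ← h4 _ (norm_nonneg _)]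
  rw [← ENNReal.ofReal_tsum_of_nonneg (fun i => by positivity) h2.summable, h2.tsum_eq]

variable {X : Type*} [MeasurableSpace X] {μ : Measure X}

theorem enorm_sq_eq (f : Lp ℂ 2 μ) : ‖f‖ₑ ^ 2 = ∫⁻ x, ‖f x‖ₑ ^ 2 ∂μ := by
  have := eLpNorm_nnreal_pow_eq_lintegral (μ := μ) (f := f) (p := 2) (by norm_num)
  rw [Lp.enorm_def]
  simpa using this

theorem memLp_of_lintegral {g : X → ℂ} (hg : AEStronglyMeasurable g μ)
    (h : ∫⁻ x, ‖g x‖ₑ ^ 2 ∂μ < ∞) : MemLp g 2 μ := by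
  refine ⟨hg, ?_⟩
  rw [eLpNorm_lt_top_iff_lintegral_rpow_enorm_lt_top (by norm_num) (by norm_num)]
  simpa using h

/-- Multiplication by an indicator function. -/
noncomputable def ind {S : Set X} (hS : MeasurableSet S) (f : Lp ℂ 2 μ) : Lp ℂ 2 μ :=
  ((Lp.memLp f).indicator hS).toLp _

theorem ind_ae {S : Set X} (hS : MeasurableSet S) (f : Lp ℂ 2 μ) :
    ind hS f =ᵐ[μ] S.indicator f := MemLp.coeFn_toLp _

theorem inner_ind {S : Set X} (hS : MeasurableSet S) (f g : Lp ℂ 2 μ) :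
    ⟪f, ind hS g⟫_ℂ = ⟪ind hS f, g⟫_ℂ := by
  rw [L2.inner_def, L2.inner_def]
  apply integral_congr_ae
  filter_upwards [ind_ae hS f, ind_ae hS g] with x h1 h2
  rw [h1, h2]
  by_cases hx : x ∈ S <;> simp [hx]

theorem enorm_ind {S : Set X} (hS : MeasurableSet S) (f : Lp ℂ 2 μ) :
    ‖ind hS f‖ₑ ^ 2 = ∫⁻ x in S, ‖f x‖ₑ ^ 2 ∂μ := by
  rw [enorm_sq_eq, ← lintegral_indicator hS]
  apply lintegral_congr_ae
  filter_upwards [ind_ae hS f] with x h1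
  rw [h1]
  by_cases hx : x ∈ S <;> simp [hx]

theorem ind_univ (f : Lp ℂ 2 μ) : ind MeasurableSet.univ f = f := by
  apply Lp.ext
  simpa using ind_ae MeasurableSet.univ f

theorem key [SFinite μ] {ι : Type*} [Countable ι] (b : HilbertBasis ι ℂ (Lp ℂ 2 μ))
    (N : Lp ℂ 2 μ →L[ℂ] Lp ℂ 2 μ) (ν : X → X → ℂ)
    (hm : AEStronglyMeasurable (Function.uncurry ν) (μ.prod μ))
    (hC : ∀ᵐ x ∂μ, ∫⁻ y, ‖ν x y‖ₑ ^ 2 ∂μ < ∞)
    (hN : ∀ f : Lp ℂ 2 μ, ∀ᵐ x ∂μ, N f x = ∫ y, ν x y * f y ∂μ)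
    {S T : Set X} (hS : MeasurableSet S) (hT : MeasurableSet T) :
    ∑' j, ‖ind hT (N (ind hS (b j)))‖ₑ ^ 2 = ∫⁻ x in T, ∫⁻ y in S, ‖ν x y‖ₑ ^ 2 ∂μ ∂μ := by
  simp only [enorm_ind]
  rw [← lintegral_tsum (fun j =>
    ((Lp.aestronglyMeasurable (N (ind hS (b j)))).restrict.enorm.pow_const 2))]
  apply lintegral_congr_ae
  apply ae_restrict_of_ae
  filter_upwards [hC, hm.prodMk_left, ae_all_iff.2 (fun j => hN (ind hS (b j)))] with x h1 h2 h3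
  have h4 : MemLp (fun y => star (ν x y)) 2 μ := (memLp_of_lintegral h2 h1).star
  have h5 : ∀ j, N (ind hS (b j)) x = ⟪ind hS (h4.toLp _), b j⟫_ℂ := by
    intro j
    rw [h3 j, ← inner_ind, L2.inner_def]
    apply integral_congr_ae
    filter_upwards [h4.coeFn_toLp] with y hy
    rw [hy]
    simp [mul_comm]
  simp only [h5]
  rw [parseval, enorm_ind]
  apply lintegral_congr_ae
  apply ae_restrict_of_ae
  filter_upwards [h4.coeFn_toLp] with y hy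
  rw [hy]
  simp

theorem main [SigmaFinite μ] [IsSeparable μ]
    (N : Lp ℂ 2 μ →L[ℂ] Lp ℂ 2 μ) (hn : IsStarNormal N) (ν : X → X → ℂ)
    (hm : AEStronglyMeasurable (Function.uncurry ν) (μ.prod μ))
    (hC : ∀ᵐ x ∂μ, ∫⁻ y, ‖ν x y‖ₑ ^ 2 ∂μ < ∞)
    (hN : ∀ f : Lp ℂ 2 μ, ∀ᵐ x ∂μ, N f x = ∫ y, ν x y * f y ∂μ) :
    ∀ᵐ y ∂μ, ∫⁻ x, ‖ν x y‖ₑ ^ 2 ∂μ = ∫⁻ x, ‖ν y x‖ₑ ^ 2 ∂μ := by
  have : Fact ((2 : ℝ≥0∞) ≠ ∞) := ⟨by norm_num⟩
  obtain ⟨w, b, -⟩ := exists_hilbertBasis ℂ (Lp ℂ 2 μ)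
  have : Countable w := countable_of_orthonormal b.orthonormal
  have hm2 : AEMeasurable (Function.uncurry fun x y => ‖ν x y‖ₑ ^ 2) (μ.prod μ) :=
    hm.enorm.pow_const 2
  refine ae_eq_of_forall_setLIntegral_eq_of_sigmaFinite₀ hm2.lintegral_prod_left
    hm2.lintegral_prod_right ?_
  intro S hS _
  have h1 := key b N ν hm hC hN hS MeasurableSet.univ
  have h2 := key b N ν hm hC hN MeasurableSet.univ hS
  simp only [ind_univ, Measure.restrict_univ] at h1 h2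
  rw [← h2, ← lintegral_lintegral_swap (μ := μ) (ν := μ.restrict S)
    (hm2.mono_ac (Measure.AbsolutelyContinuous.prod Measure.AbsolutelyContinuous.rfl
      Measure.absolutelyContinuous_restrict)), ← h1]
  have h3 : ∀ f, ‖N f‖ₑ = ‖ContinuousLinearMap.adjoint N f‖ₑ := fun f => by
    rw [← ofReal_norm, ← ofReal_norm,
      ContinuousLinearMap.isStarNormal_iff_norm_eq_adjoint.1 hn f]
  simp only [h3, ← parseval b]
  rw [ENNReal.tsum_comm]
  congr 1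
  ext i
  congr 1
  ext j
  rw [ContinuousLinearMap.adjoint_inner_left, ← inner_ind, ← inner_conj_symm]
  simp only [RCLike.enorm_conj]

end Pool.Agent.Lib.MP_0ee9ff_an
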