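import Pool.Agent.Lib.MP_0ee9ff_an.Main

namespace Pool.Agent.Lib.MP_0ee9ff_an

open scoped ENNReal InnerProductSpace
open ContinuousLinearMap

variable {H : Type*} [NormedAddCommGroup H] [InnerProductSpace ℂ H] [CompleteSpace H]

theorem enorm_sq_ofReal {E : Type*} [SeminormedAddCommGroup E] (x : E) :
    ‖x‖ₑ ^ 2 = ENNReal.ofReal (‖x‖ ^ 2) := by
  rw [ENNReal.ofReal_pow (norm_nonneg _), ofReal_norm]

/-- The positive part of the form `‖T f‖² - c ‖T* f‖²`. -/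
theorem exists_posK (T : H →L[ℂ] H) (c : ℝ) :
    ∃ (K : H →L[ℂ] H) (V : Submodule ℂ H), IsClosed (V : Set H) ∧
      (∀ f g, ⟪K f, g⟫_ℂ = ⟪f, K g⟫_ℂ) ∧ (∀ f, K f ∈ V) ∧
      (∀ f, ‖T f‖ ^ 2 - c * ‖adjoint T f‖ ^ 2 ≤ ‖K f‖ ^ 2) ∧
      (∀ f ∈ V, ‖T f‖ ^ 2 - c * ‖adjoint T f‖ ^ 2 = ‖K f‖ ^ 2) := by
  set D : H →L[ℂ] H := star T * T - (c : ℂ) • (T * star T) with hD
  have hsa : IsSelfAdjoint D := by
    rw [IsSelfAdjoint, hD]
    simp [star_sub, star_mul, star_smul]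
  have hform : ∀ f, (⟪D f, f⟫_ℂ).re = ‖T f‖ ^ 2 - c * ‖adjoint T f‖ ^ 2 := by
    intro f
    have h1 : ⟪(star T * T) f, f⟫_ℂ = ⟪T f, T f⟫_ℂ := by
      change ⟪adjoint T (T f), f⟫_ℂ = _
      rw [adjoint_inner_left]
    have h2 : ⟪(T * star T) f, f⟫_ℂ = ⟪adjoint T f, adjoint T f⟫_ℂ := by
      change ⟪T (adjoint T f), f⟫_ℂ = _
      rw [adjoint_inner_right]
    rw [hD, sub_apply, smul_apply, inner_sub_left, inner_smul_left, h1, h2,
      inner_self_eq_norm_sq_to_K, inner_self_eq_norm_sq_to_K]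
    simp [← Complex.ofReal_pow]
  set K : H →L[ℂ] H := CFC.sqrt D⁺ with hK
  have hK0 : 0 ≤ K := CFC.sqrt_nonneg _
  have hKsa : IsSelfAdjoint K := hK0.isSelfAdjoint
  have hKK : K * K = D⁺ := CFC.sqrt_mul_sqrt_self _ (CFC.posPart_nonneg D)
  have hsym : ∀ f g, ⟪K f, g⟫_ℂ = ⟪f, K g⟫_ℂ := fun f g => hKsa.isSymmetric f g
  have hN0 : 0 ≤ D⁻ := CFC.negPart_nonneg D
  have hNsa : IsSelfAdjoint D⁻ := hN0.isSelfAdjoint
  have hNK : D⁻ * K = 0 := by
    have h1 : star (K * D⁻) * (K * D⁻) = 0 := by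
      rw [star_mul, hKsa.star_eq, hNsa.star_eq, mul_assoc, ← mul_assoc K K, hKK,
        CFC.posPart_mul_negPart, mul_zero]
    have h2 : K * D⁻ = 0 := (CStarRing.star_mul_self_eq_zero_iff _).1 h1
    have h3 := congrArg star h2
    rwa [star_mul, hKsa.star_eq, hNsa.star_eq, star_zero] at h3
  have hsplit : ∀ f, (⟪D f, f⟫_ℂ).re = ‖K f‖ ^ 2 - (⟪D⁻ f, f⟫_ℂ).re := by
    intro f
    have h1 : D f = K (K f) - D⁻ f := by
      conv_lhs => rw [← CFC.posPart_sub_negPart D hsa, ← hKK]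
      rfl
    rw [h1, inner_sub_left, hsym, inner_self_eq_norm_sq_to_K]
    simp [← Complex.ofReal_pow]
  refine ⟨K, LinearMap.ker (D⁻ : H →L[ℂ] H).toLinearMap, (D⁻ : H →L[ℂ] H).isClosed_ker, hsym,
    fun f => ?_, fun f => ?_, fun f hf => ?_⟩
  · have := congrArg (fun A : H →L[ℂ] H => A f) hNK
    simpa using this
  · have h1 := ((nonneg_iff_isPositive _).1 hN0).re_inner_nonneg_left f
    have h2 : 0 ≤ (⟪D⁻ f, f⟫_ℂ).re := h1
    rw [← hform, hsplit]
    linarith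
  · have h1 : D⁻ f = 0 := hf
    rw [← hform, hsplit, h1]
    simp

omit [CompleteSpace H] in
theorem proj_step (V W : Submodule ℂ H) [V.HasOrthogonalProjection] [W.HasOrthogonalProjection]
    (x : H) (hW : ∀ v, v ∈ W ↔ v ∈ V ∧ ⟪x, v⟫_ℂ = 0) :
    ∃ y : H, ∀ z, ‖V.starProjection z‖ ^ 2 ≤ 2 * ‖W.starProjection z‖ ^ 2 + 2 * ‖⟪y, z⟫_ℂ‖ ^ 2 := by
  set p := V.starProjection x with hp
  have hpV : p ∈ V := V.starProjection_apply_mem x
  have hpx : ∀ v ∈ V, ⟪p, v⟫_ℂ = ⟪x, v⟫_ℂ := fun v hv => by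
    have := V.starProjection_inner_eq_zero x v hv
    rw [inner_sub_left, sub_eq_zero] at this
    exact this.symm
  set y : H := ((‖p‖⁻¹ : ℝ) : ℂ) • p with hy
  have hyV : y ∈ V := V.smul_mem _ hpV
  have hy1 : ‖y‖ ≤ 1 := by
    rw [hy, norm_smul, Complex.norm_real, norm_inv, norm_norm]
    exact inv_mul_le_one_of_le₀ le_rfl (norm_nonneg _)
  refine ⟨y, fun z => ?_⟩
  set v := V.starProjection z with hv
  have hvV : v ∈ V := V.starProjection_apply_mem z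
  have hzv : ∀ u ∈ V, ⟪z - v, u⟫_ℂ = 0 := fun u hu => V.starProjection_inner_eq_zero z u hu
  have hyz : ⟪y, v⟫_ℂ = ⟪y, z⟫_ℂ := by
    have := hzv y hyV
    rw [inner_eq_zero_symm, inner_sub_right, sub_eq_zero] at this
    exact this.symm
  have hmem : v - ⟪y, v⟫_ℂ • y ∈ W := by
    refine (hW _).2 ⟨V.sub_mem hvV (V.smul_mem _ hyV), ?_⟩
    rw [← hpx _ (V.sub_mem hvV (V.smul_mem _ hyV)), inner_sub_right, inner_smul_right, hy,
      inner_smul_left, inner_smul_right, inner_self_eq_norm_sq_to_K]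
    by_cases h0 : p = 0
    · simp [h0]
    · have : ((‖p‖ : ℝ) : ℂ) ≠ 0 := by exact_mod_cast norm_ne_zero_iff.2 h0
      rw [Complex.conj_ofReal]
      simp only [Complex.ofReal_inv, Complex.coe_algebraMap]
      field_simp
      ring
  have heq : W.starProjection z = v - ⟪y, v⟫_ℂ • y := by
    refine Submodule.eq_starProjection_of_mem_of_inner_eq_zero hmem fun w hw => ?_
    obtain ⟨h1, h2⟩ := (hW w).1 hw
    have h3 : ⟪y, w⟫_ℂ = 0 := by rw [hy, inner_smul_left, hpx w h1, h2, mul_zero]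
    have : z - (v - ⟪y, v⟫_ℂ • y) = (z - v) + ⟪y, v⟫_ℂ • y := by abel
    rw [this, inner_add_left, hzv w h1, inner_smul_left, h3]
    simp
  have h4 : ‖v‖ ≤ ‖W.starProjection z‖ + ‖⟪y, z⟫_ℂ‖ := by
    have : v = W.starProjection z + ⟪y, v⟫_ℂ • y := by rw [heq]; abel
    calc ‖v‖ = ‖W.starProjection z + ⟪y, v⟫_ℂ • y‖ := by rw [← this]
      _ ≤ ‖W.starProjection z‖ + ‖⟪y, v⟫_ℂ • y‖ := norm_add_le _ _
      _ ≤ _ := by
        rw [norm_smul, hyz]
        nlinarith [norm_nonneg (⟪y, z⟫_ℂ)]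
  nlinarith [norm_nonneg v, norm_nonneg (W.starProjection z), norm_nonneg (⟪y, z⟫_ℂ),
    sq_nonneg (‖W.starProjection z‖ - ‖⟪y, z⟫_ℂ‖)]

omit [CompleteSpace H] in
theorem exists_cut (V : Submodule ℂ H) (hV : IsClosed (V : Set H)) (F : Finset H) :
    ∃ W : Submodule ℂ H, IsClosed (W : Set H) ∧
      ∀ v, v ∈ W ↔ v ∈ V ∧ ∀ f ∈ F, ⟪f, v⟫_ℂ = 0 := by
  refine ⟨V ⊓ (Submodule.span ℂ (F : Set H))ᗮ, hV.inter (Submodule.isClosed_orthogonal _),
    fun v => ?_⟩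
  rw [Submodule.mem_inf, Submodule.mem_orthogonal]
  refine and_congr_right fun _ => ⟨fun h f hf => h f (Submodule.subset_span hf), fun h u hu => ?_⟩
  induction hu using Submodule.span_induction with
  | mem x hx => exact h x hx
  | zero => simp
  | add x y _ _ hx hy => rw [inner_add_left, hx, hy, add_zero]
  | smul a x _ hx => rw [inner_smul_left, hx, mul_zero]

theorem tau_cut {ι : Type*} (b : HilbertBasis ι ℂ H) (K : H →L[ℂ] H)
    (hsym : ∀ f g, ⟪K f, g⟫_ℂ = ⟪f, K g⟫_ℂ) (V : Submodule ℂ H) (hV : IsClosed (V : Set H))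
    (hKV : ∀ f, K f ∈ V) (hinf : ∑' i, ‖K (b i)‖ₑ ^ 2 = ∞) (F : Finset H) :
    ∀ (W : Submodule ℂ H) [W.HasOrthogonalProjection],
      (∀ v, v ∈ W ↔ v ∈ V ∧ ∀ f ∈ F, ⟪f, v⟫_ℂ = 0) →
      ∑' i, ‖W.starProjection (K (b i))‖ₑ ^ 2 = ∞ := by
  classical
  induction F using Finset.induction_on with
  | empty =>
    intro W _ hW
    rw [← hinf]
    congr 1
    ext i
    rw [Submodule.starProjection_eq_self_iff.2 ((hW _).2 ⟨hKV _, by simp⟩)]
  | insert x F _ ih =>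
    intro W _ hW
    obtain ⟨W₀, hc, hW₀⟩ := exists_cut V hV F
    have : CompleteSpace W₀ := hc.completeSpace_coe
    have h0 := ih W₀ hW₀
    obtain ⟨y, hy⟩ := proj_step W₀ W x (fun v => by
      rw [hW, hW₀]
      simp only [Finset.forall_mem_insert]
      tauto)
    by_contra hne
    have h1 : ∑' i, ‖W₀.starProjection (K (b i))‖ₑ ^ 2 ≤
        ∑' i, (2 * ‖W.starProjection (K (b i))‖ₑ ^ 2 + 2 * ‖⟪K y, b i⟫_ℂ‖ₑ ^ 2) := by
      refine ENNReal.tsum_le_tsum fun i => ?_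
      have := ENNReal.ofReal_le_ofReal (hy (K (b i)))
      rw [ENNReal.ofReal_add (by positivity) (by positivity), ENNReal.ofReal_mul (by norm_num),
        ENNReal.ofReal_mul (by norm_num)] at this
      simpa only [enorm_sq_ofReal, hsym, ENNReal.ofReal_ofNat] using this
    rw [ENNReal.tsum_add, ENNReal.tsum_mul_left, ENNReal.tsum_mul_left, parseval, h0] at h1
    refine absurd (top_le_iff.1 h1) (ENNReal.add_ne_top.2 ⟨ENNReal.mul_ne_top (by simp) hne,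
      ENNReal.mul_ne_top (by simp) (by rw [enorm_sq_ofReal]; exact ENNReal.ofReal_ne_top)⟩)

omit [CompleteSpace H] in
theorem tau_basis {ι κ : Type*} (b : HilbertBasis ι ℂ H) (K : H →L[ℂ] H)
    (hsym : ∀ f g, ⟪K f, g⟫_ℂ = ⟪f, K g⟫_ℂ) (W : Submodule ℂ H) [W.HasOrthogonalProjection]
    (c : HilbertBasis κ ℂ W) :
    ∑' i, ‖W.starProjection (K (b i))‖ₑ ^ 2 = ∑' j, ‖K (c j : H)‖ₑ ^ 2 := by
  have h1 : ∀ z : H, ‖W.starProjection z‖ₑ ^ 2 = ∑' j, ‖⟪z, (c j : H)⟫_ℂ‖ₑ ^ 2 := by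
    intro z
    have := parseval c (⟨W.starProjection z, W.starProjection_apply_mem z⟩ : W)
    rw [show ‖W.starProjection z‖ₑ =
      ‖(⟨W.starProjection z, W.starProjection_apply_mem z⟩ : W)‖ₑ from rfl, ← this]
    congr 1
    ext j
    rw [Submodule.coe_inner, Submodule.inner_starProjection_left_eq_right,
      Submodule.starProjection_eq_self_iff.2 (c j).2]
  simp only [h1, ← parseval b]
  rw [ENNReal.tsum_comm]
  congr 1
  ext j
  congr 1
  ext i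
  rw [hsym, ← inner_conj_symm]
  simp only [RCLike.enorm_conj]

theorem exists_subsum {ι : Type*} (a : ι → ℝ) (B : ℝ) (hB : ∀ i, a i ≤ B)
    (s : Finset ι) (hs : 1 ≤ ∑ i ∈ s, a i) :
    ∃ t ⊆ s, 1 ≤ ∑ i ∈ t, a i ∧ ∑ i ∈ t, a i ≤ 1 + B := by
  classical
  induction s using Finset.induction_on with
  | empty => simp at hs; linarith
  | insert x s hx ih =>
    by_cases h : 1 ≤ ∑ i ∈ s, a i
    · obtain ⟨t, ht, h1⟩ := ih h
      exact ⟨t, ht.trans (Finset.subset_insert _ _), h1⟩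
    · refine ⟨insert x s, subset_rfl, hs, ?_⟩
      rw [Finset.sum_insert hx]
      linarith [hB x]

/-- Diagonalising `T* T` on the span of a finite orthonormal family. -/
theorem exists_diag {κ : Type*} (T : H →L[ℂ] H) (v : κ → H) (hv : Orthonormal ℂ v)
    (s : Finset κ) (W : Submodule ℂ H) (hW : ∀ j, v j ∈ W) :
    ∃ (n : ℕ) (e : Fin n → H), Orthonormal ℂ e ∧ (∀ i, e i ∈ W) ∧
      (∀ i j, i ≠ j → ⟪T (e i), T (e j)⟫_ℂ = 0) ∧
      ∑ i, ‖T (e i)‖ ^ 2 = ∑ j ∈ s, ‖T (v j)‖ ^ 2 := by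
  classical
  set E : Submodule ℂ H := Submodule.span ℂ (s.image v : Set H) with hE
  have : FiniteDimensional ℂ E := FiniteDimensional.span_finset ℂ _
  have hEW : E ≤ W := Submodule.span_le.2 fun x hx => by
    obtain ⟨j, -, rfl⟩ := Finset.mem_image.1 (Finset.mem_coe.1 hx)
    exact hW j
  let A : E →ₗ[ℂ] E := LinearMap.codRestrict E
    ((E.starProjection ∘L adjoint T ∘L T ∘L E.subtypeL : E →L[ℂ] H) : E →ₗ[ℂ] H)
    (fun x => E.starProjection_apply_mem _)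
  have hA : ∀ x y : E, ⟪x, A y⟫_ℂ = ⟪T x, T y⟫_ℂ := by
    intro x y
    change ⟪(x : H), E.starProjection (adjoint T (T y))⟫_ℂ = _
    rw [← Submodule.inner_starProjection_left_eq_right,
      Submodule.starProjection_eq_self_iff.2 x.2, adjoint_inner_right]
  have hsymm : A.IsSymmetric := fun x y => by
    rw [← inner_conj_symm, hA, hA, inner_conj_symm]
  let e := hsymm.eigenvectorBasis rfl
  have htr : ∀ {ι : Type _} [Fintype ι] (u : OrthonormalBasis ι ℂ E),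
      (LinearMap.trace ℂ E A).re = ∑ i, ‖T (u i)‖ ^ 2 := by
    intro ι _ u
    rw [LinearMap.trace_eq_sum_inner A u, Complex.re_sum]
    refine Finset.sum_congr rfl fun i _ => ?_
    rw [hA, inner_self_eq_norm_sq_to_K]
    simp [← Complex.ofReal_pow]
  refine ⟨_, fun i => (e i : H), e.orthonormal.comp_linearIsometry E.subtypeₗᵢ,
    fun i => hEW (e i).2, fun i j hij => ?_, ?_⟩
  · rw [← hA, hsymm.apply_eigenvectorBasis, inner_smul_right, e.orthonormal.2 hij, mul_zero]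
  · have h1 : (LinearMap.trace ℂ E A).re = ∑ i, ‖T (e i)‖ ^ 2 := by
      rw [LinearMap.trace_eq_sum_inner A e, Complex.re_sum]
      refine Finset.sum_congr rfl fun i _ => ?_
      rw [hA, inner_self_eq_norm_sq_to_K]
      simp [← Complex.ofReal_pow]
    rw [← h1, htr (OrthonormalBasis.span hv s), ← Finset.sum_coe_sort s]
    refine Finset.sum_congr rfl fun i _ => ?_
    rw [OrthonormalBasis.span_apply]

end Pool.Agent.Lib.MP_0ee9ff_an
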