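import Pool.Agent.Lib.MP_0ee9ff_an.Orbit1

namespace Pool.Agent.Lib.MP_0ee9ff_an

open scoped ENNReal InnerProductSpace
open ContinuousLinearMap

variable {H : Type*} [NormedAddCommGroup H] [InnerProductSpace ℂ H] [CompleteSpace H]

/-- `T* T ≤ c T T* + (trace class)`. -/
def Dom (T : H →L[ℂ] H) : Prop :=
  ∃ (c : ℝ) (g : ℕ → H), Summable (fun n => ‖g n‖ ^ 2) ∧
    ∀ f, ‖T f‖ ^ 2 ≤ c * ‖adjoint T f‖ ^ 2 + ∑' n, ‖⟪g n, f⟫_ℂ‖ ^ 2

omit [CompleteSpace H] in
theorem parseval_real {ι : Type*} (b : HilbertBasis ι ℂ H) (f : H) :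
    HasSum (fun i => ‖⟪b i, f⟫_ℂ‖ ^ 2) (‖f‖ ^ 2) := by
  have h3 := Complex.reCLM.hasSum (b.hasSum_inner_mul_inner f f)
  convert h3 using 1
  · ext i
    rw [← inner_conj_symm f (b i), Complex.conj_mul', Complex.reCLM_apply, ← Complex.ofReal_pow,
      Complex.ofReal_re]
  · rw [Complex.reCLM_apply]
    exact (inner_self_eq_norm_sq (𝕜 := ℂ) f).symm

theorem exists_block [TopologicalSpace.SeparableSpace H] (T : H →L[ℂ] H) (hT : ¬ Dom T)
    (F : Finset H) (ε : ℝ) (hε : 0 < ε) :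
    ∃ t : Finset H, (∀ e ∈ t, ‖e‖ = 1) ∧ (∀ e ∈ t, ∀ f ∈ F, ⟪f, e⟫_ℂ = 0) ∧
      (∀ e ∈ t, ∀ e' ∈ t, e ≠ e' → ⟪e, e'⟫_ℂ = 0 ∧ ⟪T e, T e'⟫_ℂ = 0) ∧
      ∑ e ∈ t, ‖adjoint T e‖ ^ 2 ≤ ε ∧ 1 ≤ ∑ e ∈ t, ‖T e‖ ^ 2 := by
  classical
  set c : ℝ := (1 + ‖T‖ ^ 2) / ε with hc
  have hc0 : 0 < c := by positivity
  obtain ⟨K, V, hV, hsym, hKV, hle, heq⟩ := exists_posK T c
  obtain ⟨w, b, -⟩ := exists_hilbertBasis ℂ H
  have : Countable w := countable_of_orthonormal b.orthonormal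
  obtain ⟨inj, hinj⟩ := Countable.exists_injective_nat w
  have hinf : ∑' i, ‖K (b i)‖ₑ ^ 2 = ∞ := by
    by_contra hne
    apply hT
    have hs : Summable fun i => ‖K (b i)‖ ^ 2 := by
      have := ENNReal.summable_toReal hne
      simpa only [enorm_sq_ofReal, ENNReal.toReal_ofReal (sq_nonneg _)] using this
    have hg : ∀ i, Function.extend inj (fun i => K (b i)) 0 (inj i) = K (b i) := fun i =>
      hinj.extend_apply _ _ i
    have hg0 : ∀ n, n ∉ Set.range inj → Function.extend inj (fun i => K (b i)) 0 n = 0 :=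
      fun n hn => by rw [Function.extend_apply' _ _ _ hn]; rfl
    refine ⟨c, Function.extend inj (fun i => K (b i)) 0, ?_, fun f => ?_⟩
    · refine (hinj.summable_iff fun n hn => by rw [hg0 n hn]; simp).1 ?_
      simpa only [Function.comp_def, hg] using hs
    · rw [← hinj.tsum_eq (f := fun n => ‖⟪Function.extend inj (fun i => K (b i)) 0 n, f⟫_ℂ‖ ^ 2)
        (fun n hn => by
          by_contra h
          exact hn (by simp only [hg0 n h]; simp))]
      simp only [hg, hsym]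
      rw [(parseval_real b (K f)).tsum_eq]
      linarith [hle f]
  obtain ⟨W, hWc, hW⟩ := exists_cut V hV F
  have : CompleteSpace W := hWc.completeSpace_coe
  obtain ⟨κ, cb, -⟩ := exists_hilbertBasis ℂ W
  have h1 := tau_cut b K hsym V hV hKV hinf F W hW
  rw [tau_basis b K hsym W cb] at h1
  obtain ⟨s, hs⟩ : ∃ s : Finset κ, 1 ≤ ∑ j ∈ s, ‖K (cb j : H)‖ ^ 2 := by
    by_contra hno
    push Not at hno
    have : ∑' j, ‖K (cb j : H)‖ₑ ^ 2 ≤ 1 := by
      rw [ENNReal.tsum_eq_iSup_sum]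
      refine iSup_le fun s => ?_
      simp only [enorm_sq_ofReal]
      rw [← ENNReal.ofReal_sum_of_nonneg (fun _ _ => sq_nonneg _)]
      exact ENNReal.ofReal_le_one.2 (hno s).le
    rw [h1] at this
    simp at this
  obtain ⟨n, e, he, heW, hTe, hsum⟩ := exists_diag T (fun j => (cb j : H))
    (cb.orthonormal.comp_linearIsometry W.subtypeₗᵢ) s W (fun j => (cb j).2)
  have h2 : 1 ≤ ∑ i, ‖T (e i)‖ ^ 2 := by
    rw [hsum]
    refine hs.trans (Finset.sum_le_sum fun j _ => ?_)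
    have := heq _ ((hW _).1 (cb j).2).1
    nlinarith [sq_nonneg ‖adjoint T (cb j : H)‖]
  obtain ⟨t, -, ht1, ht2⟩ := exists_subsum (fun i => ‖T (e i)‖ ^ 2) (‖T‖ ^ 2) (fun i => by
    have := T.le_opNorm (e i)
    rw [he.1 i, mul_one] at this
    exact pow_le_pow_left₀ (norm_nonneg _) this 2) Finset.univ h2
  have heinj : Function.Injective e := he.linearIndependent.injective
  refine ⟨t.image e, ?_, ?_, ?_, ?_, ?_⟩
  · simp only [Finset.forall_mem_image]
    exact fun i _ => he.1 i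
  · simp only [Finset.forall_mem_image]
    exact fun i _ => ((hW _).1 (heW i)).2
  · simp only [Finset.forall_mem_image]
    intro i _ j _ hij
    have : i ≠ j := fun h => hij (h ▸ rfl)
    exact ⟨he.2 this, hTe i j this⟩
  · rw [Finset.sum_image heinj.injOn]
    have h3 : c * ∑ i ∈ t, ‖adjoint T (e i)‖ ^ 2 ≤ ∑ i ∈ t, ‖T (e i)‖ ^ 2 := by
      rw [Finset.mul_sum]
      refine Finset.sum_le_sum fun i _ => ?_
      have := heq _ ((hW _).1 (heW i)).1
      nlinarith [sq_nonneg ‖K (e i)‖]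
    have h4 : c * ε = 1 + ‖T‖ ^ 2 := by rw [hc]; field_simp
    exact le_of_mul_le_mul_left (by linarith) hc0
  · rwa [Finset.sum_image heinj.injOn]

theorem exists_blocks [TopologicalSpace.SeparableSpace H] (T : H →L[ℂ] H) (hT : ¬ Dom T) :
    ∃ t : ℕ → Finset H, (∀ s, ∀ e ∈ t s, ‖e‖ = 1) ∧
      (∀ s r, ∀ e ∈ t s, ∀ e' ∈ t r, e ≠ e' → ⟪e, e'⟫_ℂ = 0 ∧ ⟪T e, T e'⟫_ℂ = 0) ∧
      (∀ s r e, e ∈ t s → e ∈ t r → s = r) ∧
      (∀ s, ∑ e ∈ t s, ‖adjoint T e‖ ^ 2 ≤ (1 / 2) ^ s) ∧ ∀ s, 1 ≤ ∑ e ∈ t s, ‖T e‖ ^ 2 := by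
  classical
  choose blk h1 h2 h3 h4 h5 using exists_block T hT
  have hp : ∀ s : ℕ, (0 : ℝ) < (1 / 2) ^ s := fun s => by positivity
  let A : ℕ → Finset H := fun s => Nat.rec ∅
    (fun s A => A ∪ blk (A ∪ A.image fun x => adjoint T (T x)) _ (hp s)) s
  let t : ℕ → Finset H := fun s => blk (A s ∪ (A s).image fun x => adjoint T (T x)) _ (hp s)
  have hA : ∀ s, A (s + 1) = A s ∪ t s := fun s => rfl
  have hmono : Monotone A := monotone_nat_of_le_succ fun s => by
    rw [hA]; exact Finset.subset_union_left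
  have hsub : ∀ r s, r < s → t r ⊆ A s := fun r s h =>
    (show t r ⊆ A (r + 1) by rw [hA]; exact Finset.subset_union_right).trans (hmono h)
  have hlt : ∀ r s, r < s → ∀ e ∈ t r, ∀ e' ∈ t s, ⟪e, e'⟫_ℂ = 0 ∧ ⟪T e, T e'⟫_ℂ = 0 := by
    intro r s h e he e' he'
    refine ⟨h2 _ _ _ e' he' e (Finset.mem_union_left _ (hsub r s h he)), ?_⟩
    rw [← adjoint_inner_left]
    exact h2 _ _ _ e' he' _ (Finset.mem_union_right _ (Finset.mem_image_of_mem _ (hsub r s h he)))
  refine ⟨t, fun s => h1 _ _ _, fun s r e he e' he' hne => ?_, fun s r e he he' => ?_,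
    fun s => h4 _ _ _, fun s => h5 _ _ _⟩
  · rcases lt_trichotomy s r with h | rfl | h
    · exact hlt s r h e he e' he'
    · exact h3 _ _ _ e he e' he' hne
    · have := hlt r s h e' he' e he
      exact ⟨inner_eq_zero_symm.1 this.1, inner_eq_zero_symm.1 this.2⟩
  · have hn : ‖e‖ = 1 := h1 _ _ _ e he
    have h0 : ⟪e, e⟫_ℂ ≠ 0 := fun h => by
      rw [inner_self_eq_zero] at h
      simp [h] at hn
    rcases lt_trichotomy s r with h | h | h
    · exact absurd (hlt s r h e he e he').1 h0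
    · exact h
    · exact absurd (hlt r s h e he' e he).1 h0

theorem exists_good_basis [TopologicalSpace.SeparableSpace H] (T : H →L[ℂ] H) (hT : ¬ Dom T) :
    ∃ (b : HilbertBasis (ℕ × ℤ) ℂ H) (good : ℕ × ℤ → Prop),
      (∀ i k, good i → good k → i ≠ k → ⟪T (b i), T (b k)⟫_ℂ = 0) ∧
      (∀ i k, ¬ good i → ¬ good k → i.1 = k.1 → i = k) ∧
      Summable (fun i => ((1 / 2 : ℝ) ^ i.1) ^ 2 * ‖adjoint T (b i)‖ ^ 2) ∧
      ∀ (n N : ℕ), ∃ u : Finset (ℕ × ℤ), (∀ i ∈ u, good i ∧ i.1 = n) ∧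
        (N : ℝ) ≤ ∑ i ∈ u, ‖T (b i)‖ ^ 2 := by
  classical
  obtain ⟨t, h1, h2, h3, h4, h5⟩ := exists_blocks T hT
  have hG : Orthonormal ℂ ((↑) : {e | ∃ s, e ∈ t s} → H) := by
    refine ⟨fun ⟨e, s, he⟩ => h1 s e he, fun ⟨e, s, he⟩ ⟨e', r, he'⟩ hne => ?_⟩
    exact (h2 s r e he e' he' fun h => hne (Subtype.ext h)).1
  obtain ⟨w, b, hw, hb⟩ := hG.exists_hilbertBasis_extension
  have : Countable w := countable_of_orthonormal b.orthonormal
  obtain ⟨inj, hinj⟩ := Countable.exists_injective_nat w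
  let lab : w → ℕ := fun i =>
    if h : ∃ s, (i : H) ∈ t s then (Nat.unpair h.choose).1 else inj i
  have hlab : ∀ (i : w) s, (i : H) ∈ t s → lab i = (Nat.unpair s).1 := by
    intro i s hi
    have h : ∃ s, (i : H) ∈ t s := ⟨s, hi⟩
    simp only [lab, dif_pos h]
    rw [h3 _ _ _ h.choose_spec hi]
  have hne : ∀ s, ∃ e, e ∈ t s := fun s => by
    by_contra h
    have h0 : t s = ∅ := Finset.eq_empty_of_forall_notMem fun e he => h ⟨e, he⟩
    have := h5 s
    rw [h0] at this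
    norm_num at this
  choose pick hpick using hne
  have hinf : ∀ n, Infinite {i : w // lab i = n} := fun n => by
    refine Infinite.of_injective (fun k : ℕ => (⟨⟨pick (Nat.pair n k), hw ⟨_, hpick _⟩⟩, by
      rw [hlab _ _ (hpick _), Nat.unpair_pair]⟩ : {i : w // lab i = n})) fun k l hkl => ?_
    have h6 : pick (Nat.pair n k) = pick (Nat.pair n l) :=
      congrArg (fun i : {i : w // lab i = n} => (i.1 : H)) hkl
    have := h3 _ _ _ (hpick (Nat.pair n k)) (h6 ▸ hpick (Nat.pair n l))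
    exact (Nat.pair_eq_pair.1 this).2
  have hfib : ∀ n, Nonempty ({i : w // lab i = n} ≃ ℤ) := fun n => nonempty_equiv_of_countable
  let σ : w ≃ ℕ × ℤ := (Equiv.sigmaFiberEquiv lab).symm.trans
    ((Equiv.sigmaCongrRight fun n => (hfib n).some).trans (Equiv.sigmaEquivProd ℕ ℤ))
  have hσ : ∀ i, (σ i).1 = lab i := fun i => rfl
  have hσ' : ∀ j, lab (σ.symm j) = j.1 := fun j => by rw [← hσ, Equiv.apply_symm_apply]
  have horth : Orthonormal ℂ (b ∘ σ.symm) := b.orthonormal.comp _ σ.symm.injective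
  have hsp : ⊤ ≤ (Submodule.span ℂ (Set.range (b ∘ σ.symm))).topologicalClosure := by
    rw [σ.symm.surjective.range_comp, b.dense_span]
  have hb' : ∀ j, HilbertBasis.mk horth hsp j = (σ.symm j : H) := fun j => by
    rw [HilbertBasis.coe_mk, Function.comp_apply, hb]
  refine ⟨HilbertBasis.mk horth hsp, fun j => ∃ s, (σ.symm j : H) ∈ t s, ?_, ?_, ?_, ?_⟩
  · rintro i k ⟨s, hs⟩ ⟨r, hr⟩ hik
    rw [hb', hb']
    exact (h2 s r _ hs _ hr fun h => hik (σ.symm.injective (Subtype.ext h))).2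
  · intro i k hi hk hik
    rw [← hσ', ← hσ'] at hik
    simp only [lab, dif_neg hi, dif_neg hk] at hik
    exact σ.symm.injective (hinj hik)
  · simp only [hb', ← hσ']
    refine (σ.symm.summable_iff
      (f := fun i : w => ((1 / 2 : ℝ) ^ lab i) ^ 2 * ‖adjoint T (i : H)‖ ^ 2)).2 ?_
    have hs1 : Summable fun i : w =>
        if ∃ s, (i : H) ∈ t s then ‖adjoint T (i : H)‖ ^ 2 else 0 := by
      refine summable_of_sum_le (c := 2) (fun i => by dsimp only; split_ifs <;> positivity)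
        fun u => ?_
      rw [← Finset.sum_filter]
      let st : w → ℕ := fun i => if h : ∃ s, (i : H) ∈ t s then h.choose else 0
      rw [← Finset.sum_fiberwise_of_maps_to (t := u.image st) (g := st)
        (fun i hi => Finset.mem_image_of_mem _ (Finset.mem_filter.1 hi).1)]
      refine le_trans (Finset.sum_le_sum fun s _ => ?_)
        ((summable_geometric_two.sum_le_tsum _ (fun _ _ => by positivity)).trans
          tsum_geometric_two.le)
      refine le_trans ?_ (h4 s)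
      rw [← Finset.sum_image (f := fun e : H => ‖adjoint T e‖ ^ 2) Subtype.val_injective.injOn]
      refine Finset.sum_le_sum_of_subset_of_nonneg ?_ (fun _ _ _ => by positivity)
      intro e he
      obtain ⟨i, hi, rfl⟩ := Finset.mem_image.1 he
      obtain ⟨hi1, hi2⟩ := Finset.mem_filter.1 hi
      have h := (Finset.mem_filter.1 hi1).2
      simp only [st, dif_pos h] at hi2
      exact hi2 ▸ h.choose_spec
    have hs2 : Summable fun i : w => (1 / 2 : ℝ) ^ inj i * ‖adjoint T‖ ^ 2 :=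
      (summable_geometric_two.comp_injective hinj).mul_right _
    refine Summable.of_nonneg_of_le (fun i => by positivity) (fun i => ?_) (hs1.add hs2)
    have hq : ∀ m : ℕ, ((1 / 2 : ℝ) ^ m) ^ 2 ≤ (1 / 2) ^ m ∧ (1 / 2 : ℝ) ^ m ≤ 1 := fun m => by
      have h7 : (1 / 2 : ℝ) ^ m ≤ 1 := pow_le_one₀ (by norm_num) (by norm_num)
      have h8 : (0 : ℝ) ≤ (1 / 2) ^ m := by positivity
      exact ⟨by nlinarith, h7⟩
    by_cases h : ∃ s, (i : H) ∈ t s
    · rw [if_pos h]
      have := (hq (lab i)).1.trans (hq (lab i)).2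
      have h9 : (0 : ℝ) ≤ (1 / 2) ^ inj i * ‖adjoint T‖ ^ 2 := by positivity
      nlinarith [sq_nonneg ‖adjoint T (i : H)‖]
    · rw [if_neg h, zero_add]
      simp only [lab, dif_neg h]
      have h9 := (adjoint T).le_opNorm (i : H)
      have h10 : ‖(i : H)‖ = 1 := by have := b.orthonormal.1 i; rwa [hb] at this
      rw [h10, mul_one] at h9
      exact mul_le_mul (hq _).1 (pow_le_pow_left₀ (norm_nonneg _) h9 2) (by positivity)
        (by positivity)
  · intro n N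
    suffices h : ∃ u : Finset (ℕ × ℤ), (∀ i ∈ u, ∃ k < N, (σ.symm i : H) ∈ t (Nat.pair n k)) ∧
        (N : ℝ) ≤ ∑ i ∈ u, ‖T (σ.symm i : H)‖ ^ 2 by
      obtain ⟨u, hu1, hu2⟩ := h
      refine ⟨u, fun i hi => ?_, by simpa only [hb'] using hu2⟩
      obtain ⟨k, -, hk⟩ := hu1 i hi
      exact ⟨⟨_, hk⟩, by rw [← hσ', hlab _ _ hk, Nat.unpair_pair]⟩
    induction N with
    | zero => exact ⟨∅, by simp, by simp⟩
    | succ N ih =>
      obtain ⟨u, hu1, hu2⟩ := ih
      let v : Finset (ℕ × ℤ) := (t (Nat.pair n N)).attach.image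
        fun e => σ ⟨e.1, hw ⟨_, e.2⟩⟩
      have hv : ∀ i ∈ v, (σ.symm i : H) ∈ t (Nat.pair n N) := fun i hi => by
        obtain ⟨e, -, rfl⟩ := Finset.mem_image.1 hi
        simp
      have hdisj : Disjoint u v := Finset.disjoint_left.2 fun i hi hi' => by
        obtain ⟨k, hk, hk'⟩ := hu1 i hi
        exact hk.ne (Nat.pair_eq_pair.1 (h3 _ _ _ hk' (hv i hi'))).2
      refine ⟨u ∪ v, fun i hi => ?_, ?_⟩
      · rcases Finset.mem_union.1 hi with h | h
        · obtain ⟨k, hk, hk'⟩ := hu1 i h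
          exact ⟨k, hk.trans (Nat.lt_succ_self _), hk'⟩
        · exact ⟨N, Nat.lt_succ_self _, hv i h⟩
      · rw [Finset.sum_union hdisj, Finset.sum_image (fun e _ e' _ h => by
          have := σ.injective h
          exact Subtype.ext (congrArg (fun i : w => (i : H)) this))]
        simp only [Equiv.symm_apply_apply]
        rw [Finset.sum_attach (t (Nat.pair n N)) (fun e => ‖T e‖ ^ 2)]
        push_cast
        linarith [h5 (Nat.pair n N)]

end Pool.Agent.Lib.MP_0ee9ff_an
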