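import Pool.Agent.Lib.MP_0ee9ff_an.Orbit2

namespace Pool.Agent.Lib.MP_0ee9ff_an

open MeasureTheory Set Filter Topology
open scoped ENNReal InnerProductSpace

theorem exists_partition (a b : EReal) (hab : a < b) :
    ∃ c d : ℕ → ℝ, (∀ n, c n < d n) ∧
      Pairwise (fun n m => Disjoint (Ioc (c n) (d n)) (Ioc (c m) (d m))) ∧
      ⋃ n, Ioc (c n) (d n) = {x : ℝ | a < (x : EReal) ∧ (x : EReal) < b} := by
  obtain ⟨m, hm1, hm2⟩ := exists_between hab
  obtain ⟨u, hu, hu1, hu2⟩ := exists_seq_strictMono_tendsto' hm2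
  obtain ⟨l, hl, hl1, hl2⟩ := exists_seq_strictAnti_tendsto' hm1
  have hur : ∀ n, ((u n).toReal : EReal) = u n := fun n =>
    EReal.coe_toReal (ne_top_of_lt (hu1 n).2) (ne_bot_of_gt (hu1 n).1)
  have hlr : ∀ n, ((l n).toReal : EReal) = l n := fun n =>
    EReal.coe_toReal (ne_top_of_lt (hl1 n).2) (ne_bot_of_gt (hl1 n).1)
  let t : ℤ → ℝ := fun k => match k with
    | Int.ofNat n => (u n).toReal
    | Int.negSucc n => (l n).toReal
  have ht : StrictMono t := by
    refine strictMono_int_of_lt_succ fun k => ?_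
    rw [← EReal.coe_lt_coe_iff]
    rcases k with n | n
    · change ((u n).toReal : EReal) < (u (n + 1)).toReal
      rw [hur, hur]
      exact hu (Nat.lt_succ_self n)
    · rcases n with _ | n
      · change ((l 0).toReal : EReal) < (u 0).toReal
        rw [hur, hlr]
        exact (hl1 0).2.trans (hu1 0).1
      · have : Int.negSucc (n + 1) + 1 = Int.negSucc n := by
          simp only [Int.negSucc_eq]; push_cast; ring
        rw [this]
        change ((l (n + 1)).toReal : EReal) < (l n).toReal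
        rw [hlr, hlr]
        exact hl (Nat.lt_succ_self n)
  have hin : ∀ k, a < (t k : EReal) ∧ (t k : EReal) < b := by
    rintro (n | n)
    · change a < ((u n).toReal : EReal) ∧ ((u n).toReal : EReal) < b
      rw [hur]
      exact ⟨hm1.trans (hu1 n).1, (hu1 n).2⟩
    · change a < ((l n).toReal : EReal) ∧ ((l n).toReal : EReal) < b
      rw [hlr]
      exact ⟨(hl1 n).1, (hl1 n).2.trans hm2⟩
  let e : ℕ ≃ ℤ := Equiv.intEquivNat.symm
  refine ⟨fun n => t (e n), fun n => t (e n + 1), fun n => ht (lt_add_one _), fun n m hnm => ?_, ?_⟩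
  · exact ht.monotone.pairwise_disjoint_on_Ioc_succ (e.injective.ne hnm)
  · ext x
    simp only [mem_iUnion, mem_Ioc, mem_ofPred_eq]
    constructor
    · rintro ⟨n, h1, h2⟩
      exact ⟨(hin _).1.trans (EReal.coe_lt_coe_iff.2 h1),
        (EReal.coe_le_coe_iff.2 h2).trans_lt (hin _).2⟩
    · rintro ⟨h1, h2⟩
      obtain ⟨p, hp⟩ := (hu2.eventually (lt_mem_nhds h2)).exists
      obtain ⟨q, hq⟩ := (hl2.eventually (gt_mem_nhds h1)).exists
      have hp' : x < t (Int.ofNat p) := by
        rw [← EReal.coe_lt_coe_iff]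
        exact hp.trans_eq (hur p).symm
      have hq' : t (Int.negSucc q) < x := by
        rw [← EReal.coe_lt_coe_iff]
        exact (hlr q).trans_lt hq
      obtain ⟨k, hk1, hk2⟩ := Int.exists_greatest_of_bdd (P := fun k => t k < x)
        ⟨Int.ofNat p, fun z hz => ((ht.lt_iff_lt (a := z) (b := Int.ofNat p)).1
          (hz.trans hp')).le⟩ ⟨Int.negSucc q, hq'⟩
      refine ⟨e.symm k, ?_⟩
      rw [Equiv.apply_symm_apply]
      refine ⟨hk1, not_lt.1 fun h => ?_⟩
      have := hk2 _ h
      omega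

theorem fourierCoeffOn_fourier {c d : ℝ} (h : c < d) (k l : ℤ) :
    fourierCoeffOn h (fun x : ℝ => fourier l (x : AddCircle (d - c))) k =
      if k = l then 1 else 0 := by
  have := Fact.mk (sub_pos.2 h)
  have h1 := fourierCoeff_eq_intervalIntegral (T := d - c) (fourier l) k c
  rw [add_sub_cancel, fourierCoeff_fourier] at h1
  rw [fourierCoeffOn_eq_integral, ← h1, Pi.single_apply]

theorem exists_fourier_basis (I : Set ℝ) (c d : ℕ → ℝ) (h1 : ∀ n, c n < d n)
    (h2 : Pairwise (fun n m => Disjoint (Ioc (c n) (d n)) (Ioc (c m) (d m))))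
    (h3 : ⋃ n, Ioc (c n) (d n) = I) :
    ∃ φ : HilbertBasis (ℕ × ℤ) ℂ (Lp ℂ 2 (volume.restrict I)), ∀ i,
      ∀ᵐ x ∂(volume.restrict I), ‖φ i x‖ ^ 2 =
        (Ioc (c i.1) (d i.1)).indicator (fun _ => (d i.1 - c i.1)⁻¹) x := by
  have hsub : ∀ n, Ioc (c n) (d n) ⊆ I := fun n => h3 ▸ subset_iUnion (fun n => Ioc (c n) (d n)) n
  have hres : ∀ n, (volume.restrict I).restrict (Ioc (c n) (d n)) =
      volume.restrict (Ioc (c n) (d n)) := fun n => Measure.restrict_restrict_of_subset (hsub n)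
  have hae : ∀ n {p : ℝ → Prop}, (∀ᵐ x ∂(volume.restrict I), p x) →
      ∀ᵐ x ∂(volume.restrict (Ioc (c n) (d n))), p x := fun n p h => by
    rw [← hres]; exact ae_restrict_of_ae h
  let r : ℕ → ℝ := fun n => √(d n - c n)
  have hr : ∀ n, 0 < r n := fun n => Real.sqrt_pos.2 (sub_pos.2 (h1 n))
  have hr2 : ∀ n, r n ^ 2 = d n - c n := fun n => Real.sq_sqrt (sub_pos.2 (h1 n)).le
  let g : ℕ × ℤ → ℝ → ℂ := fun i x =>
    (((r i.1)⁻¹ : ℝ) : ℂ) * fourier i.2 (x : AddCircle (d i.1 - c i.1))
  have hgn : ∀ i x, ‖g i x‖ = (r i.1)⁻¹ := fun i x => by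
    simp only [g, norm_mul, Complex.norm_real, fourier_apply, Circle.norm_coe, mul_one]
    exact Real.norm_of_nonneg (inv_pos.2 (hr _)).le
  have hgc : ∀ i, Continuous (g i) := fun i =>
    continuous_const.mul ((fourier i.2).continuous.comp (AddCircle.continuous_mk' _))
  have hmem : ∀ i, MemLp ((Ioc (c i.1) (d i.1)).indicator (g i)) 2 (volume.restrict I) := fun i => by
    rw [memLp_indicator_iff_restrict measurableSet_Ioc, hres]
    exact MemLp.of_bound (hgc i).aestronglyMeasurable _ (Eventually.of_forall fun x => (hgn i x).le)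
  let v : ℕ × ℤ → Lp ℂ 2 (volume.restrict I) := fun i => (hmem i).toLp _
  have hv : ∀ i, v i =ᵐ[volume.restrict I] (Ioc (c i.1) (d i.1)).indicator (g i) := fun i =>
    (hmem i).coeFn_toLp
  have hin : ∀ i (f : Lp ℂ 2 (volume.restrict I)),
      ⟪v i, f⟫_ℂ = (r i.1 : ℂ) * fourierCoeffOn (h1 i.1) f i.2 := by
    intro i f
    rw [L2.inner_def, fourierCoeffOn_eq_integral, intervalIntegral.integral_of_le (h1 _).le,
      ← hres, ← integral_indicator measurableSet_Ioc, Complex.real_smul, ← mul_assoc,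
      ← integral_const_mul]
    refine integral_congr_ae ?_
    filter_upwards [hv i] with x hx
    rw [hx]
    by_cases h : x ∈ Ioc (c i.1) (d i.1)
    · have h0 : (r i.1 : ℂ) ≠ 0 := by exact_mod_cast (hr _).ne'
      simp only [indicator_of_mem h, g, RCLike.inner_apply, map_mul, Complex.conj_ofReal,
        fourier_neg, smul_eq_mul, ← hr2]
      push_cast
      field_simp
    · simp [indicator_of_notMem h]
  have horth : Orthonormal ℂ v := by
    classical
    rw [orthonormal_iff_ite]
    rintro ⟨n, k⟩ ⟨m, l⟩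
    rw [hin]
    by_cases hnm : n = m
    · subst hnm
      have h0 : (r n : ℂ) ≠ 0 := by exact_mod_cast (hr _).ne'
      rw [fourierCoeffOn_congr_ae (h1 n) (g := g (n, l)) (by
        filter_upwards [hae n (hv (n, l)), ae_restrict_mem measurableSet_Ioc] with x hx hx'
        rw [hx, indicator_of_mem hx'])]
      simp only [g]
      rw [fourierCoeffOn.const_mul, fourierCoeffOn_fourier]
      by_cases hkl : k = l <;> simp [hkl, h0]
    · rw [fourierCoeffOn_congr_ae (h1 n) (g := fun _ => 0) (by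
        filter_upwards [hae n (hv (m, l)), ae_restrict_mem measurableSet_Ioc] with x hx hx'
        rw [hx, indicator_of_notMem (Set.disjoint_left.1 (h2 hnm) hx')])]
      simp [fourierCoeffOn_eq_integral, hnm]
  have hsp : (Submodule.span ℂ (range v))ᗮ = ⊥ := by
    rw [Submodule.eq_bot_iff]
    intro f hf
    refine Lp.ext ((?_ : (f : ℝ → ℂ) =ᵐ[volume.restrict I] 0).trans (Lp.coeFn_zero _ _ _).symm)
    have key : ∀ n, (f : ℝ → ℂ) =ᵐ[volume.restrict (Ioc (c n) (d n))] 0 := by
      intro n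
      have hL : MemLp f 2 (volume.restrict (Ioc (c n) (d n))) := by
        rw [← hres]; exact (Lp.memLp f).restrict _
      have h4 := hasSum_sq_fourierCoeffOn (h1 n) hL
      have h5 : ∀ k, fourierCoeffOn (h1 n) f k = 0 := fun k => by
        have h6 := hf (v (n, k)) (Submodule.subset_span ⟨_, rfl⟩)
        rw [hin] at h6
        exact (mul_eq_zero.1 h6).resolve_left (by exact_mod_cast (hr _).ne')
      simp only [h5, norm_zero, ne_eq, OfNat.ofNat_ne_zero, not_false_eq_true, zero_pow] at h4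
      have h7 := h4.unique hasSum_zero
      rw [smul_eq_zero, intervalIntegral.integral_of_le (h1 n).le] at h7
      have h8 := h7.resolve_left (inv_pos.2 (sub_pos.2 (h1 n))).ne'
      rw [integral_eq_zero_iff_of_nonneg (fun x => by positivity)
        ((memLp_two_iff_integrable_sq_norm hL.1).1 hL)] at h8
      filter_upwards [h8] with x hx
      simpa using hx
    have h9 : ∀ᵐ x ∂(volume.restrict (⋃ n, Ioc (c n) (d n))), (f : ℝ → ℂ) x = 0 :=
      (ae_restrict_iUnion_iff _ _).2 key
    rwa [h3] at h9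
  refine ⟨HilbertBasis.mkOfOrthogonalEqBot horth hsp, fun i => ?_⟩
  rw [HilbertBasis.coe_mkOfOrthogonalEqBot]
  filter_upwards [hv i] with x hx
  rw [hx]
  by_cases h : x ∈ Ioc (c i.1) (d i.1)
  · rw [indicator_of_mem h, indicator_of_mem h, hgn, inv_pow, hr2]
  · simp [indicator_of_notMem h]

end Pool.Agent.Lib.MP_0ee9ff_an
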