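import Pool.Agent.Lib.MP_0ee9ff_an.Orbit3

namespace Pool.Agent.Lib.MP_0ee9ff_an

open MeasureTheory Set Filter Topology ContinuousLinearMap
open scoped ENNReal InnerProductSpace ComplexConjugate

section abstract

variable {H : Type*} [NormedAddCommGroup H] [InnerProductSpace ℂ H]

theorem norm_sum_sq {ι : Type*} (w : ι → H) (t : Finset ι)
    (h : ∀ i ∈ t, ∀ j ∈ t, i ≠ j → ⟪w i, w j⟫_ℂ = 0) :
    ‖∑ i ∈ t, w i‖ ^ 2 = ∑ i ∈ t, ‖w i‖ ^ 2 := by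
  classical
  induction t using Finset.induction_on with
  | empty => simp
  | insert x s hx ih =>
    rw [Finset.sum_insert hx, Finset.sum_insert hx, ← ih fun i hi j hj =>
      h i (Finset.mem_insert_of_mem hi) j (Finset.mem_insert_of_mem hj), @norm_add_sq ℂ,
      inner_sum, Finset.sum_eq_zero fun i hi => h x (Finset.mem_insert_self _ _) i
        (Finset.mem_insert_of_mem hi) (fun e => hx (e ▸ hi))]
    simp

theorem summable_of_orth [CompleteSpace H] {ι : Type*} (w : ι → H)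
    (h : ∀ i j, i ≠ j → ⟪w i, w j⟫_ℂ = 0) (hs : Summable fun i => ‖w i‖ ^ 2) : Summable w := by
  rw [summable_iff_vanishing_norm] at hs ⊢
  intro ε hε
  obtain ⟨s, hs⟩ := hs (ε ^ 2) (by positivity)
  refine ⟨s, fun t ht => ?_⟩
  have h1 := hs t ht
  rw [← norm_sum_sq w t fun i _ j _ => h i j, Real.norm_of_nonneg (by positivity)] at h1
  exact lt_of_pow_lt_pow_left₀ 2 hε.le h1

theorem bessel_orth {ι : Type*} (y : ι → H) (α : ι → ℂ) (z : H) (t : Finset ι)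
    (h : ∀ i ∈ t, ∀ j ∈ t, i ≠ j → ⟪y i, y j⟫_ℂ = 0)
    (hz : ∀ i ∈ t, ⟪y i, z⟫_ℂ = α i * ⟪y i, y i⟫_ℂ) :
    ∑ i ∈ t, ‖y i‖ ^ 2 * ‖α i‖ ^ 2 ≤ ‖z‖ ^ 2 := by
  set p := ∑ i ∈ t, α i • y i with hp
  have h1 : ‖p‖ ^ 2 = ∑ i ∈ t, ‖y i‖ ^ 2 * ‖α i‖ ^ 2 := by
    rw [hp, norm_sum_sq _ _ fun i hi j hj hij => by
      rw [inner_smul_left, inner_smul_right, h i hi j hj hij]; simp]
    exact Finset.sum_congr rfl fun i _ => by rw [norm_smul]; ring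
  have h2 : (⟪p, z⟫_ℂ).re = ∑ i ∈ t, ‖y i‖ ^ 2 * ‖α i‖ ^ 2 := by
    rw [hp, sum_inner, Complex.re_sum]
    refine Finset.sum_congr rfl fun i hi => ?_
    rw [inner_smul_left, hz i hi, ← mul_assoc, Complex.conj_mul', inner_self_eq_norm_sq_to_K]
    simp only [Complex.coe_algebraMap, ← Complex.ofReal_pow, ← Complex.ofReal_mul,
      Complex.ofReal_re]
    ring
  have h3 : (⟪p, z⟫_ℂ).re ≤ ‖p‖ * ‖z‖ := (Complex.re_le_norm _).trans (norm_inner_le_norm _ _)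
  rw [← h1]
  rw [← h1] at h2
  nlinarith [norm_nonneg p, norm_nonneg z, sq_nonneg (‖p‖ - ‖z‖)]

theorem col_bound [CompleteSpace H] (φ : HilbertBasis (ℕ × ℤ) ℂ H) (N : H →L[ℂ] H)
    (good : ℕ × ℤ → Prop) (h1 : ∀ i k, good i → good k → i ≠ k → ⟪N (φ i), N (φ k)⟫_ℂ = 0)
    (h2 : ∀ i k, ¬ good i → ¬ good k → i.1 = k.1 → i = k) (n : ℕ) (P : H → H)
    (hP : ∀ f g, ⟪f, P g⟫_ℂ = ⟪P f, g⟫_ℂ) (hPn : ∀ i : ℕ × ℤ, i.1 ≠ n → P (φ i) = 0)
    (hs : Summable fun j => ‖N (P (φ j))‖ ^ 2) :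
    ∃ C : ℝ, ∀ u : Finset (ℕ × ℤ), (∀ i ∈ u, good i) →
      ∑ k ∈ u, ‖N (φ k)‖ ^ 2 * ‖P (φ k)‖ ^ 2 ≤ C := by
  obtain ⟨ψ, hψ1, hψ2⟩ : ∃ ψ : H, (∀ k, good k → ⟪φ k, ψ⟫_ℂ = 0) ∧
      ∀ g i, ¬ good i → ⟪φ i, P g - ⟪ψ, P g⟫_ℂ • ψ⟫_ℂ = 0 := by
    by_cases h : ∃ i₀ : ℕ × ℤ, ¬ good i₀ ∧ i₀.1 = n
    · obtain ⟨i₀, hi₀, hn⟩ := h
      refine ⟨φ i₀, fun k hk => φ.orthonormal.2 (fun e => hi₀ (e ▸ hk)), fun g i hi => ?_⟩
      rw [inner_sub_right, inner_smul_right]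
      by_cases e : i = i₀
      · subst e
        rw [inner_self_eq_norm_sq_to_K, φ.orthonormal.1 i]
        simp
      · rw [φ.orthonormal.2 e, hP, hPn i fun h => e (h2 i i₀ hi hi₀ (h.trans hn.symm))]
        simp
    · refine ⟨0, fun k _ => inner_zero_right _, fun g i hi => ?_⟩
      rw [smul_zero, sub_zero, hP, hPn i fun e => h ⟨i, hi, e⟩, inner_zero_left]
  refine ⟨2 * ∑' j, ‖N (P (φ j))‖ ^ 2 + 2 * ‖N ψ‖ ^ 2 * ‖P ψ‖ ^ 2, fun u hu => ?_⟩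
  refine hasSum_le (fun j => ?_)
    (hasSum_sum fun k _ => (parseval_real φ (P (φ k))).mul_left (‖N (φ k)‖ ^ 2))
    ((hs.hasSum.mul_left 2).add ((parseval_real φ (P ψ)).mul_left (2 * ‖N ψ‖ ^ 2)))
  set f := P (φ j) - ⟪ψ, P (φ j)⟫_ℂ • ψ with hf
  have h3 := bessel_orth (fun k => N (φ k)) (fun k => ⟪φ k, f⟫_ℂ) (N f) u
    (fun i hi k hk => h1 i k (hu i hi) (hu k hk)) (fun k hk => by
      have h4 := ((innerSL ℂ (N (φ k))).comp N).hasSum (φ.hasSum_repr f)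
      refine h4.unique ?_
      have h5 : ⟪φ k, f⟫_ℂ * ⟪N (φ k), N (φ k)⟫_ℂ =
          ((innerSL ℂ (N (φ k))).comp N) (φ.repr f k • φ k) := by
        simp [φ.repr_apply_apply]
      rw [h5]
      refine hasSum_single k fun i hik => ?_
      simp only [φ.repr_apply_apply, map_smul, comp_apply, innerSL_apply_apply, smul_eq_mul]
      by_cases hi : good i
      · rw [h1 k i (hu k hk) hi hik.symm, mul_zero]
      · rw [hψ2 _ i hi, zero_mul])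
  have h6 : ∑ k ∈ u, ‖N (φ k)‖ ^ 2 * ‖⟪φ j, P (φ k)⟫_ℂ‖ ^ 2 =
      ∑ k ∈ u, ‖N (φ k)‖ ^ 2 * ‖⟪φ k, f⟫_ℂ‖ ^ 2 := by
    refine Finset.sum_congr rfl fun k hk => ?_
    rw [hf, inner_sub_right, inner_smul_right, hψ1 k (hu k hk), mul_zero, sub_zero, hP,
      norm_inner_symm]
  have h7 : ‖N f‖ ≤ ‖N (P (φ j))‖ + ‖⟪φ j, P ψ⟫_ℂ‖ * ‖N ψ‖ := by
    rw [hf, map_sub, map_smul]
    refine (norm_sub_le _ _).trans ?_
    rw [norm_smul, hP, norm_inner_symm]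
  rw [h6]
  refine h3.trans ?_
  have h8 := pow_le_pow_left₀ (norm_nonneg _) h7 2
  nlinarith [sq_nonneg (‖N (P (φ j))‖ - ‖⟪φ j, P ψ⟫_ℂ‖ * ‖N ψ‖)]

end abstract

variable {X : Type*} [MeasurableSpace X] {μ : Measure X} [SFinite μ]

theorem memLp_tens (f g : Lp ℂ 2 μ) :
    MemLp (fun p : X × X => f p.1 * conj (g p.2)) 2 (μ.prod μ) := by
  refine memLp_of_lintegral ((Lp.aestronglyMeasurable f).comp_fst.mul
    (Lp.aestronglyMeasurable g).star.comp_snd) ?_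
  simp only [enorm_mul, mul_pow, RCLike.enorm_conj]
  rw [lintegral_prod_mul (f := fun x => ‖f x‖ₑ ^ 2) (g := fun x => ‖g x‖ₑ ^ 2)
    ((Lp.aestronglyMeasurable f).enorm.pow_const 2) ((Lp.aestronglyMeasurable g).enorm.pow_const 2),
    ← enorm_sq_eq, ← enorm_sq_eq, enorm_sq_ofReal, enorm_sq_ofReal]
  exact ENNReal.mul_lt_top ENNReal.ofReal_lt_top ENNReal.ofReal_lt_top

/-- The function `f(x) conj(g(y))`. -/
noncomputable def tens (f g : Lp ℂ 2 μ) : Lp ℂ 2 (μ.prod μ) := (memLp_tens f g).toLp _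

theorem tens_ae (f g : Lp ℂ 2 μ) :
    tens f g =ᵐ[μ.prod μ] fun p : X × X => f p.1 * conj (g p.2) := MemLp.coeFn_toLp _

theorem inner_tens (f g f' g' : Lp ℂ 2 μ) :
    ⟪tens f g, tens f' g'⟫_ℂ = ⟪f, f'⟫_ℂ * ⟪g', g⟫_ℂ := by
  rw [L2.inner_def, L2.inner_def, L2.inner_def, ← integral_prod_mul]
  refine integral_congr_ae ?_
  filter_upwards [tens_ae f g, tens_ae f' g'] with p h1 h2
  rw [h1, h2]
  simp only [RCLike.inner_apply, map_mul, RingHomCompTriple.comp_apply, RingHom.id_apply]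
  ring

theorem inner_tens_left (u f : Lp ℂ 2 μ) (W : Lp ℂ 2 (μ.prod μ)) :
    ⟪tens u f, W⟫_ℂ = ∫ x, conj (u x) * ∫ y, W (x, y) * f y ∂μ ∂μ := by
  have h : (fun p => ⟪tens u f p, W p⟫_ℂ) =ᵐ[μ.prod μ]
      fun p => conj (u p.1) * (W p * f p.2) := by
    filter_upwards [tens_ae u f] with p h1
    rw [h1]
    simp only [RCLike.inner_apply, map_mul, RingHomCompTriple.comp_apply, RingHom.id_apply]
    ring
  rw [L2.inner_def, integral_congr_ae h, integral_prod _ ((L2.integrable_inner _ _).congr h)]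
  simp only [integral_const_mul]

theorem row_lt_top (W : Lp ℂ 2 (μ.prod μ)) : ∫⁻ x, ∫⁻ y, ‖W (x, y)‖ₑ ^ 2 ∂μ ∂μ < ∞ := by
  rw [← lintegral_prod (fun p => ‖W p‖ₑ ^ 2) ((Lp.aestronglyMeasurable W).enorm.pow_const 2),
    ← enorm_sq_eq, enorm_sq_ofReal]
  exact ENNReal.ofReal_lt_top

theorem row_ae (W : Lp ℂ 2 (μ.prod μ)) : ∀ᵐ x ∂μ, ∫⁻ y, ‖W (x, y)‖ₑ ^ 2 ∂μ < ∞ :=
  ae_lt_top' ((Lp.aestronglyMeasurable W).enorm.pow_const 2).lintegral_prod_right'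
    (row_lt_top W).ne

theorem memLp_act (W : Lp ℂ 2 (μ.prod μ)) (f : Lp ℂ 2 μ) :
    MemLp (fun x => ∫ y, W (x, y) * f y ∂μ) 2 μ := by
  refine memLp_of_lintegral ((Lp.aestronglyMeasurable W).mul
    (Lp.aestronglyMeasurable f).comp_snd).integral_prod_right' ?_
  have h : ∀ᵐ x ∂μ, ‖∫ y, W (x, y) * f y ∂μ‖ₑ ^ 2 ≤ (∫⁻ y, ‖W (x, y)‖ₑ ^ 2 ∂μ) * ‖f‖ₑ ^ 2 := by
    filter_upwards [row_ae W, (Lp.aestronglyMeasurable W).prodMk_left] with x h1 h2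
    have h4 : MemLp (fun y => star (W (x, y))) 2 μ := (memLp_of_lintegral h2 h1).star
    have h5 : ∫ y, W (x, y) * f y ∂μ = ⟪h4.toLp _, f⟫_ℂ := by
      rw [L2.inner_def]
      apply integral_congr_ae
      filter_upwards [h4.coeFn_toLp] with y hy
      rw [hy]
      simp [mul_comm]
    have h6 : ∫⁻ y, ‖W (x, y)‖ₑ ^ 2 ∂μ = ‖h4.toLp _‖ₑ ^ 2 := by
      rw [enorm_sq_eq]
      apply lintegral_congr_ae
      filter_upwards [h4.coeFn_toLp] with y hy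
      rw [hy]
      simp
    rw [h5, h6, enorm_sq_ofReal, enorm_sq_ofReal, enorm_sq_ofReal,
      ← ENNReal.ofReal_mul (by positivity), ← mul_pow]
    exact ENNReal.ofReal_le_ofReal (pow_le_pow_left₀ (norm_nonneg _) (norm_inner_le_norm _ _) 2)
  refine (lintegral_mono_ae h).trans_lt ?_
  rw [lintegral_mul_const' _ _ (by rw [enorm_sq_ofReal]; exact ENNReal.ofReal_ne_top),
    enorm_sq_ofReal]
  exact ENNReal.mul_lt_top (row_lt_top W) ENNReal.ofReal_lt_top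

theorem exists_hs_kernel {ι : Type*} (φ : HilbertBasis ι ℂ (Lp ℂ 2 μ)) (z : ι → Lp ℂ 2 μ)
    (hz : Summable fun i => ‖z i‖ ^ 2) :
    ∃ W : Lp ℂ 2 (μ.prod μ), ∀ f k, ⟪tens (φ k) f, W⟫_ℂ = ⟪z k, f⟫_ℂ := by
  have h1 : ∀ i, ‖tens (φ i) (z i)‖ ^ 2 = ‖z i‖ ^ 2 := fun i => by
    have := inner_tens (φ i) (z i) (φ i) (z i)
    rw [inner_self_eq_norm_sq_to_K, inner_self_eq_norm_sq_to_K, inner_self_eq_norm_sq_to_K,
      φ.orthonormal.1 i] at this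
    simp only [Complex.coe_algebraMap, Complex.ofReal_one, one_pow, one_mul] at this
    exact_mod_cast this
  have hs := summable_of_orth (fun i => tens (φ i) (z i))
    (fun i j hij => by rw [inner_tens, φ.orthonormal.2 hij, zero_mul]) (by simpa only [h1] using hz)
  refine ⟨∑' i, tens (φ i) (z i), fun f k => ?_⟩
  refine ((innerSL ℂ (tens (φ k) f)).hasSum hs.hasSum).unique ?_
  have h2 : ⟪z k, f⟫_ℂ = innerSL ℂ (tens (φ k) f) (tens (φ k) (z k)) := by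
    rw [innerSL_apply_apply, inner_tens, inner_self_eq_norm_sq_to_K, φ.orthonormal.1 k]
    simp
  rw [h2]
  refine hasSum_single k fun i hik => ?_
  rw [innerSL_apply_apply, inner_tens, φ.orthonormal.2 hik.symm, zero_mul]

end Pool.Agent.Lib.MP_0ee9ff_an
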