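import Pool.Agent.Lib.MP_0ee9ff_an.Orbit4

namespace Pool.Agent.Lib.MP_0ee9ff_an

open MeasureTheory Set Filter Topology ContinuousLinearMap
open scoped ENNReal InnerProductSpace ComplexConjugate

variable {X : Type*} [MeasurableSpace X] {μ : Measure X}

theorem exists_carleman [SFinite μ] {ι : Type*} (φ : HilbertBasis ι ℂ (Lp ℂ 2 μ)) (lab : ι → ℕ)
    (S : ℕ → Set X) (hS : ∀ n, MeasurableSet (S n))
    (hd : Pairwise fun n m => Disjoint (S n) (S m)) (hc : ∀ᵐ x ∂μ, ∃ n, x ∈ S n)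
    (hφ : ∀ i, ∀ᵐ x ∂μ, x ∉ S (lab i) → φ i x = 0) (N : Lp ℂ 2 μ →L[ℂ] Lp ℂ 2 μ)
    (hN : Summable fun i => ((1 / 2 : ℝ) ^ lab i) ^ 2 * ‖adjoint N (φ i)‖ ^ 2) :
    ∃ ν : X → X → ℂ, AEStronglyMeasurable (Function.uncurry ν) (μ.prod μ) ∧
      (∀ᵐ x ∂μ, ∫⁻ y, ‖ν x y‖ₑ ^ 2 ∂μ < ∞) ∧
      ∀ f : Lp ℂ 2 μ, ∀ᵐ x ∂μ, N f x = ∫ y, ν x y * f y ∂μ := by
  obtain ⟨W, hW⟩ := exists_hs_kernel φ
    (fun i => (((1 / 2 : ℝ) ^ lab i : ℝ) : ℂ) • adjoint N (φ i)) (by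
      refine hN.congr fun i => ?_
      rw [norm_smul, Complex.norm_real, Real.norm_of_nonneg (by positivity), mul_pow])
  let ω : X → ℝ := fun x =>
    (∑' n, (S n).indicator (fun _ => ENNReal.ofReal ((1 / 2) ^ n)) x).toReal
  have hωm : Measurable ω :=
    (Measurable.tsum fun n => measurable_const.indicator (hS n)).ennreal_toReal
  have hω : ∀ n x, x ∈ S n → ω x = (1 / 2) ^ n := fun n x hx => by
    simp only [ω]
    rw [tsum_eq_single n fun m hm => indicator_of_notMem (Set.disjoint_left.1 (hd hm.symm) hx) _,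
      indicator_of_mem hx, ENNReal.toReal_ofReal (by positivity)]
  have hωc : AEStronglyMeasurable (fun x => (ω x : ℂ)) μ :=
    (Complex.measurable_ofReal.comp hωm).aestronglyMeasurable
  refine ⟨fun x y => (ω x : ℂ)⁻¹ * W (x, y), ?_, ?_, fun f => ?_⟩
  · exact ((Complex.measurable_ofReal.comp hωm).inv.aestronglyMeasurable (μ := μ)).comp_fst.mul
      (Lp.aestronglyMeasurable W)
  · filter_upwards [row_ae W] with x hx
    simp only [enorm_mul, mul_pow]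
    rw [lintegral_const_mul' _ _ (by rw [enorm_sq_ofReal]; exact ENNReal.ofReal_ne_top),
      enorm_sq_ofReal]
    exact ENNReal.mul_lt_top ENNReal.ofReal_lt_top hx
  · have hg : MemLp (fun x => (ω x : ℂ) * N f x) 2 μ := by
      refine (Lp.memLp (N f)).of_le (hωc.mul (Lp.aestronglyMeasurable _)) ?_
      filter_upwards [hc] with x ⟨n, hx⟩
      rw [norm_mul, hω n x hx, Complex.norm_real, Real.norm_of_nonneg (by positivity)]
      exact mul_le_of_le_one_left (norm_nonneg _) (pow_le_one₀ (by norm_num) (by norm_num))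
    have heq : hg.toLp _ = (memLp_act W f).toLp _ := by
      apply φ.repr.injective
      ext k
      rw [φ.repr_apply_apply, φ.repr_apply_apply]
      have h1 : ⟪φ k, (memLp_act W f).toLp _⟫_ℂ = ⟪tens (φ k) f, W⟫_ℂ := by
        rw [inner_tens_left, L2.inner_def]
        refine integral_congr_ae ?_
        filter_upwards [(memLp_act W f).coeFn_toLp] with x hx
        rw [hx, RCLike.inner_apply, mul_comm]
      rw [h1, hW, inner_smul_left, adjoint_inner_left, Complex.conj_ofReal, L2.inner_def,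
        L2.inner_def, ← integral_const_mul]
      refine integral_congr_ae ?_
      filter_upwards [hg.coeFn_toLp, hφ k] with x hx hx'
      rw [hx]
      by_cases h : x ∈ S (lab k)
      · rw [hω _ x h]
        simp only [RCLike.inner_apply]
        ring
      · simp [hx' h]
    filter_upwards [hg.coeFn_toLp, (memLp_act W f).coeFn_toLp, hc] with x h1 h2 ⟨n, hx⟩
    rw [heq, h2] at h1
    have h0 : (ω x : ℂ) ≠ 0 := by
      rw [hω n x hx]
      exact_mod_cast (by positivity : ((1 / 2 : ℝ) ^ n) ≠ 0)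
    simp only [mul_assoc]
    rw [integral_const_mul, h1, inv_mul_cancel_left₀ h0]

theorem key_col [SFinite μ] {ι : Type*} [Countable ι] (b : HilbertBasis ι ℂ (Lp ℂ 2 μ))
    (N : Lp ℂ 2 μ →L[ℂ] Lp ℂ 2 μ) (ν : X → X → ℂ)
    (hm : AEStronglyMeasurable (Function.uncurry ν) (μ.prod μ))
    (hC : ∀ᵐ x ∂μ, ∫⁻ y, ‖ν x y‖ₑ ^ 2 ∂μ < ∞)
    (hN : ∀ f : Lp ℂ 2 μ, ∀ᵐ x ∂μ, N f x = ∫ y, ν x y * f y ∂μ)
    {S : Set X} (hS : MeasurableSet S) :
    ∑' j, ‖N (ind hS (b j))‖ₑ ^ 2 = ∫⁻ y in S, ∫⁻ x, ‖ν x y‖ₑ ^ 2 ∂μ ∂μ := by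
  have hm2 : AEMeasurable (Function.uncurry fun x y => ‖ν x y‖ₑ ^ 2) (μ.prod μ) :=
    hm.enorm.pow_const 2
  have h1 := key b N ν hm hC hN hS MeasurableSet.univ
  simp only [ind_univ, Measure.restrict_univ] at h1
  rw [← lintegral_lintegral_swap (μ := μ) (ν := μ.restrict S)
    (hm2.mono_ac (Measure.AbsolutelyContinuous.prod Measure.AbsolutelyContinuous.rfl
      Measure.absolutelyContinuous_restrict)), ← h1]

theorem col_eq_top [SFinite μ] (φ : HilbertBasis (ℕ × ℤ) ℂ (Lp ℂ 2 μ))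
    (S : ℕ → Set X) (hS : ∀ n, MeasurableSet (S n)) (hfin : ∀ n, μ (S n) < ∞)
    (hd : Pairwise fun n m => Disjoint (S n) (S m)) (hc : ∀ᵐ x ∂μ, ∃ n, x ∈ S n)
    (l : ℕ → ℝ) (hl : ∀ n, 0 < l n)
    (hφ : ∀ i, ∀ᵐ x ∂μ, ‖φ i x‖ ^ 2 = (S i.1).indicator (fun _ => l i.1) x)
    (N : Lp ℂ 2 μ →L[ℂ] Lp ℂ 2 μ) (good : ℕ × ℤ → Prop)
    (h1 : ∀ i k, good i → good k → i ≠ k → ⟪N (φ i), N (φ k)⟫_ℂ = 0)
    (h2 : ∀ i k, ¬ good i → ¬ good k → i.1 = k.1 → i = k)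
    (h3 : ∀ (n M : ℕ), ∃ u : Finset (ℕ × ℤ), (∀ i ∈ u, good i ∧ i.1 = n) ∧
      (M : ℝ) ≤ ∑ i ∈ u, ‖N (φ i)‖ ^ 2)
    (ν : X → X → ℂ) (hm : AEStronglyMeasurable (Function.uncurry ν) (μ.prod μ))
    (hC : ∀ᵐ x ∂μ, ∫⁻ y, ‖ν x y‖ₑ ^ 2 ∂μ < ∞)
    (hN : ∀ f : Lp ℂ 2 μ, ∀ᵐ x ∂μ, N f x = ∫ y, ν x y * f y ∂μ) :
    ∀ᵐ y ∂μ, ∫⁻ x, ‖ν x y‖ₑ ^ 2 ∂μ = ∞ := by
  have hm2 : AEMeasurable (Function.uncurry fun x y => ‖ν x y‖ₑ ^ 2) (μ.prod μ) :=
    hm.enorm.pow_const 2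
  have hcol : AEMeasurable (fun y => ∫⁻ x, ‖ν x y‖ₑ ^ 2 ∂μ) μ := hm2.lintegral_prod_left
  have hnull : ∀ n M : ℕ, μ (S n ∩ {y | hcol.mk _ y ≤ M}) = 0 := by
    intro n M
    set A := S n ∩ {y | hcol.mk _ y ≤ M} with hAdef
    have hA : MeasurableSet A :=
      (hS n).inter (measurableSet_le hcol.measurable_mk measurable_const)
    have hAfin : μ A < ∞ := (measure_mono inter_subset_left).trans_lt (hfin n)
    by_contra hne
    have hlt : ∑' j, ‖N (ind hA (φ j))‖ₑ ^ 2 < ∞ := by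
      rw [key_col φ N ν hm hC hN hA]
      refine lt_of_le_of_lt (lintegral_mono_ae (g := fun _ => (M : ℝ≥0∞)) ?_) ?_
      · filter_upwards [ae_restrict_of_ae hcol.ae_eq_mk, ae_restrict_mem hA] with y hy hy'
        rw [hy]
        exact hy'.2
      · rw [setLIntegral_const]
        exact ENNReal.mul_lt_top (ENNReal.natCast_lt_top M) hAfin
    have hs : Summable fun j => ‖N (ind hA (φ j))‖ ^ 2 := by
      have := ENNReal.summable_toReal hlt.ne
      simpa only [enorm_sq_ofReal, ENNReal.toReal_ofReal (sq_nonneg _)] using this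
    obtain ⟨C, hC'⟩ := col_bound φ N good h1 h2 n (ind hA) (inner_ind hA) (fun i hi => by
      refine Lp.ext ((ind_ae hA (φ i)).trans (EventuallyEq.trans ?_ (Lp.coeFn_zero _ _ _).symm))
      filter_upwards [hφ i] with x hx
      by_cases h : x ∈ A
      · rw [indicator_of_notMem (Set.disjoint_right.1 (hd hi) h.1)] at hx
        simpa [h] using hx
      · simp [h]) hs
    have hδ : ∀ k : ℕ × ℤ, k.1 = n → ‖ind hA (φ k)‖ ^ 2 = l n * (μ A).toReal := by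
      rintro k rfl
      have h4 : ‖ind hA (φ k)‖ₑ ^ 2 = ENNReal.ofReal (l k.1) * μ A := by
        rw [enorm_ind, ← setLIntegral_const]
        refine lintegral_congr_ae ?_
        filter_upwards [ae_restrict_of_ae (hφ k), ae_restrict_mem hA] with y hy hy'
        rw [enorm_sq_ofReal, hy, indicator_of_mem hy'.1]
      have h5 := congrArg ENNReal.toReal h4
      rwa [enorm_sq_ofReal, ENNReal.toReal_ofReal (sq_nonneg _), ENNReal.toReal_mul,
        ENNReal.toReal_ofReal (hl _).le] at h5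
    have hδ0 : 0 < l n * (μ A).toReal := mul_pos (hl n) (ENNReal.toReal_pos hne hAfin.ne)
    obtain ⟨m, hm'⟩ := exists_nat_gt (C / (l n * (μ A).toReal))
    obtain ⟨u, hu1, hu2⟩ := h3 n m
    have h6 := hC' u fun i hi => (hu1 i hi).1
    rw [Finset.sum_congr rfl fun k hk => by rw [hδ k (hu1 k hk).2], ← Finset.sum_mul] at h6
    rw [div_lt_iff₀ hδ0] at hm'
    nlinarith
  have h7 : ∀ᵐ y ∂μ, ∀ n M : ℕ, y ∉ S n ∩ {y | hcol.mk _ y ≤ M} :=
    ae_all_iff.2 fun n => ae_all_iff.2 fun M => measure_eq_zero_iff_ae_notMem.1 (hnull n M)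
  filter_upwards [h7, hc, hcol.ae_eq_mk] with y hy ⟨n, hn⟩ hy'
  rw [hy']
  by_contra hne
  obtain ⟨M, hM⟩ := ENNReal.exists_nat_gt hne
  exact hy n M ⟨hn, hM.le⟩

theorem col_lt_top [SigmaFinite μ] [IsSeparable μ]
    (N : Lp ℂ 2 μ →L[ℂ] Lp ℂ 2 μ) (hD : Dom N) (ν : X → X → ℂ)
    (hm : AEStronglyMeasurable (Function.uncurry ν) (μ.prod μ))
    (hC : ∀ᵐ x ∂μ, ∫⁻ y, ‖ν x y‖ₑ ^ 2 ∂μ < ∞)
    (hN : ∀ f : Lp ℂ 2 μ, ∀ᵐ x ∂μ, N f x = ∫ y, ν x y * f y ∂μ) :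
    ∀ᵐ y ∂μ, ∫⁻ x, ‖ν x y‖ₑ ^ 2 ∂μ < ∞ := by
  obtain ⟨c, g, hg, hle⟩ := hD
  have : Fact ((2 : ℝ≥0∞) ≠ ∞) := ⟨by norm_num⟩
  obtain ⟨w, b, -⟩ := exists_hilbertBasis ℂ (Lp ℂ 2 μ)
  have : Countable w := countable_of_orthonormal b.orthonormal
  have hm2 : AEMeasurable (Function.uncurry fun x y => ‖ν x y‖ₑ ^ 2) (μ.prod μ) :=
    hm.enorm.pow_const 2
  have hgm : ∀ n, AEMeasurable (fun y => ‖g n y‖ₑ ^ 2) μ := fun n =>
    (Lp.aestronglyMeasurable (g n)).enorm.pow_const 2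
  have h1 : (fun y => ∫⁻ x, ‖ν x y‖ₑ ^ 2 ∂μ) ≤ᵐ[μ]
      fun y => ENNReal.ofReal |c| * ∫⁻ x, ‖ν y x‖ₑ ^ 2 ∂μ + ∑' n, ‖g n y‖ₑ ^ 2 := by
    refine ae_le_of_forall_setLIntegral_le_of_sigmaFinite₀ hm2.lintegral_prod_left
      fun S hS _ => ?_
    have h2 := key b N ν hm hC hN MeasurableSet.univ hS
    simp only [ind_univ, Measure.restrict_univ] at h2
    rw [← key_col b N ν hm hC hN hS,
      lintegral_add_left' (hm2.lintegral_prod_right.const_mul _).restrict,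
      lintegral_const_mul' _ _ ENNReal.ofReal_ne_top, ← h2,
      lintegral_tsum fun n => (hgm n).restrict]
    have h3 : ∀ f, ‖N f‖ₑ ^ 2 ≤
        ENNReal.ofReal |c| * ‖adjoint N f‖ₑ ^ 2 + ∑' n, ‖⟪g n, f⟫_ℂ‖ₑ ^ 2 := by
      intro f
      have hs : Summable fun n => ‖⟪g n, f⟫_ℂ‖ ^ 2 :=
        Summable.of_nonneg_of_le (fun n => by positivity) (fun n => by
          rw [← mul_pow]
          exact pow_le_pow_left₀ (norm_nonneg _) (norm_inner_le_norm _ _) 2)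
          (hg.mul_right (‖f‖ ^ 2))
      simp only [enorm_sq_ofReal]
      rw [← ENNReal.ofReal_tsum_of_nonneg (fun n => by positivity) hs,
        ← ENNReal.ofReal_mul (abs_nonneg _),
        ← ENNReal.ofReal_add (by positivity) (tsum_nonneg fun n => by positivity)]
      refine ENNReal.ofReal_le_ofReal ((hle f).trans ?_)
      gcongr
      exact le_abs_self c
    refine (ENNReal.tsum_le_tsum fun j => h3 _).trans (le_of_eq ?_)
    rw [ENNReal.tsum_add, ENNReal.tsum_mul_left]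
    congr 1
    · congr 1
      simp only [← parseval b]
      rw [ENNReal.tsum_comm]
      congr 1
      ext i
      congr 1
      ext j
      rw [adjoint_inner_left, ← inner_ind, ← inner_conj_symm]
      simp only [RCLike.enorm_conj]
    · rw [ENNReal.tsum_comm]
      congr 1
      ext n
      simp only [inner_ind]
      rw [parseval, enorm_ind]
  have h4 : ∀ᵐ y ∂μ, ∑' n, ‖g n y‖ₑ ^ 2 < ∞ := by
    refine ae_lt_top' (AEMeasurable.tsum hgm) ?_
    rw [lintegral_tsum hgm]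
    simp only [← enorm_sq_eq]
    simp only [enorm_sq_ofReal]
    rw [← ENNReal.ofReal_tsum_of_nonneg (fun n => by positivity) hg]
    exact ENNReal.ofReal_ne_top
  filter_upwards [h1, h4, hC] with y h5 h6 h7
  exact h5.trans_lt (ENNReal.add_lt_top.2 ⟨ENNReal.mul_lt_top ENNReal.ofReal_lt_top h7, h6⟩)

section unitaryConj

variable {H : Type*} [NormedAddCommGroup H] [InnerProductSpace ℂ H] [CompleteSpace H]

/-- `U T U⁻¹`. -/
noncomputable def conjOp (U : H ≃ₗᵢ[ℂ] H) (T : H →L[ℂ] H) : H →L[ℂ] H :=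
  U.toLinearIsometry.toContinuousLinearMap ∘L T ∘L U.symm.toLinearIsometry.toContinuousLinearMap

omit [CompleteSpace H] in
theorem conjOp_apply (U : H ≃ₗᵢ[ℂ] H) (T : H →L[ℂ] H) (f : H) :
    conjOp U T f = U (T (U.symm f)) := rfl

theorem adjoint_conjOp (U : H ≃ₗᵢ[ℂ] H) (T : H →L[ℂ] H) (f : H) :
    adjoint (conjOp U T) f = U (adjoint T (U.symm f)) := by
  refine ext_inner_left ℂ fun g => ?_
  rw [adjoint_inner_right, conjOp_apply, ← U.symm.inner_map_map, ← U.symm.inner_map_map g,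
    U.symm_apply_apply, U.symm_apply_apply, adjoint_inner_right]

theorem Dom.conjOp (U : H ≃ₗᵢ[ℂ] H) {T : H →L[ℂ] H} (h : Dom T) : Dom (conjOp U T) := by
  obtain ⟨c, g, hg, hle⟩ := h
  refine ⟨c, fun n => U (g n), by simpa using hg, fun f => ?_⟩
  rw [adjoint_conjOp, conjOp_apply, U.norm_map, U.norm_map]
  convert hle (U.symm f) using 5 with n
  rw [← U.symm.inner_map_map, U.symm_apply_apply]

end unitaryConj

theorem exists_bad_conj (a b : EReal) (hab : a < b)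
    (T : Lp ℂ 2 (volume.restrict {x : ℝ | a < (x : EReal) ∧ (x : EReal) < b}) →L[ℂ]
      Lp ℂ 2 (volume.restrict {x : ℝ | a < (x : EReal) ∧ (x : EReal) < b})) (hT : ¬ Dom T) :
    ∃ (U : _ ≃ₗᵢ[ℂ] _) (ν : ℝ → ℝ → ℂ),
      AEStronglyMeasurable (Function.uncurry ν)
        ((volume.restrict {x : ℝ | a < (x : EReal) ∧ (x : EReal) < b}).prod
          (volume.restrict {x : ℝ | a < (x : EReal) ∧ (x : EReal) < b})) ∧
      (∀ᵐ x ∂(volume.restrict {x : ℝ | a < (x : EReal) ∧ (x : EReal) < b}),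
        ∫⁻ y, ‖ν x y‖ₑ ^ 2 ∂(volume.restrict {x : ℝ | a < (x : EReal) ∧ (x : EReal) < b}) < ∞) ∧
      (∀ f, ∀ᵐ x ∂(volume.restrict {x : ℝ | a < (x : EReal) ∧ (x : EReal) < b}),
        conjOp U T f x = ∫ y, ν x y * f y
          ∂(volume.restrict {x : ℝ | a < (x : EReal) ∧ (x : EReal) < b})) ∧
      ∀ᵐ y ∂(volume.restrict {x : ℝ | a < (x : EReal) ∧ (x : EReal) < b}),
        ∫⁻ x, ‖ν x y‖ₑ ^ 2 ∂(volume.restrict {x : ℝ | a < (x : EReal) ∧ (x : EReal) < b}) = ∞ := by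
  have : Fact ((2 : ℝ≥0∞) ≠ ∞) := ⟨by norm_num⟩
  obtain ⟨c, d, h1, h2, h3⟩ := exists_partition a b hab
  obtain ⟨φ, hφ⟩ := exists_fourier_basis _ c d h1 h2 h3
  obtain ⟨e, good, g1, g2, g3, g4⟩ := exists_good_basis T hT
  let U := e.repr.trans φ.repr.symm
  have hU : ∀ i, U.symm (φ i) = e i := fun i => by
    classical
    change e.repr.symm (φ.repr (φ i)) = e i
    rw [φ.repr_self, e.repr_symm_single]
  have hc : ∀ᵐ x ∂(volume.restrict {x : ℝ | a < (x : EReal) ∧ (x : EReal) < b}),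
      ∃ n, x ∈ Ioc (c n) (d n) := by
    rw [← h3]
    filter_upwards [ae_restrict_mem (MeasurableSet.iUnion fun n => measurableSet_Ioc)] with x hx
    exact mem_iUnion.1 hx
  obtain ⟨ν, k1, k2, k3⟩ := exists_carleman φ Prod.fst (fun n => Ioc (c n) (d n))
    (fun n => measurableSet_Ioc) h2 hc (fun i => by
      filter_upwards [hφ i] with x hx h
      rw [indicator_of_notMem h] at hx
      simpa using hx) (conjOp U T) (by simpa only [adjoint_conjOp, U.norm_map, hU] using g3)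
  refine ⟨U, ν, k1, k2, k3, col_eq_top φ (fun n => Ioc (c n) (d n)) (fun n => measurableSet_Ioc)
    (fun n => (Measure.restrict_apply_le _ _).trans_lt measure_Ioc_lt_top) h2 hc
    (fun n => (d n - c n)⁻¹) (fun n => inv_pos.2 (sub_pos.2 (h1 n))) hφ (conjOp U T) good ?_ g2 ?_
    ν k1 k2 k3⟩
  · simpa only [conjOp_apply, hU, U.inner_map_map] using g1
  · simpa only [conjOp_apply, hU, U.norm_map] using g4

end Pool.Agent.Lib.MP_0ee9ff_an
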